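import Mathlib

/-!
Lower bound for the integral over the unit interval of a product of affine factors.
-/

open Real MeasureTheory Set Finset

namespace Pool.Agent.H496Z.Var

section
variable {𝕜 : Type} [RCLike 𝕜] {N : ℕ}

/-- the product of the affine factors -/
noncomputable def g (x : Fin N → 𝕜) (s : Finset (Fin N)) (t : ℝ) : 𝕜 :=
  ∏ i ∈ s, (1 - (t : 𝕜) * (1 - x i))

lemma g_cont (x : Fin N → 𝕜) (s : Finset (Fin N)) : Continuous (g x s) := by
  unfold g
  fun_prop

lemma g_deriv (x : Fin N → 𝕜) (t : ℝ) :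
    HasDerivAt (g x univ) (∑ j, g x (univ.erase j) t * (-(1 - x j))) t := by
  have h : ∀ i ∈ (univ : Finset (Fin N)),
      HasDerivAt (fun t : ℝ => (1 - (t : 𝕜) * (1 - x i))) (-(1 - x i)) t := by
    intro i _
    have h1 : HasDerivAt (fun t : ℝ => (t : 𝕜)) 1 t := by
      simpa using (RCLike.ofRealCLM (K := 𝕜)).hasDerivAt (x := t)
    simpa using (h1.mul_const (1 - x i)).const_sub 1
  have := HasDerivAt.fun_finsetProd h
  simp only [smul_eq_mul] at this
  exact this

/-- the error term -/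
noncomputable def err (x : Fin N → 𝕜) (t : ℝ) : 𝕜 :=
  (t : 𝕜) * ∑ j, (1 - x j) ^ 2 * g x (univ.erase j) t

lemma err_cont (x : Fin N → 𝕜) : Continuous (err x) := by
  unfold err
  have := g_cont x
  fun_prop

lemma ident (x : Fin N → 𝕜) :
    ((N : 𝕜) - ∑ j, x j) * ∫ t in (0 : ℝ)..1, g x univ t
      = 1 - ∏ j, x j - ∫ t in (0 : ℝ)..1, err x t := by
  have h1 : ∫ t in (0 : ℝ)..1, (∑ j, g x (univ.erase j) t * (-(1 - x j)))
      = g x univ 1 - g x univ 0 := by
    apply intervalIntegral.integral_eq_sub_of_hasDerivAt (fun t _ => g_deriv x t)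
    apply Continuous.intervalIntegrable
    have := g_cont x
    fun_prop
  have h2 : ∀ t, ((N : 𝕜) - ∑ j, x j) * g x univ t
      = -(∑ j, g x (univ.erase j) t * (-(1 - x j))) - err x t := by
    intro t
    have e : (N : 𝕜) - ∑ j, x j = ∑ j, (1 - x j) := by simp [Finset.sum_sub_distrib]
    rw [e, err, Finset.sum_mul, Finset.mul_sum, ← Finset.sum_neg_distrib, ← Finset.sum_sub_distrib]
    refine Finset.sum_congr rfl fun j _ => ?_
    have : g x univ t = (1 - (t : 𝕜) * (1 - x j)) * g x (univ.erase j) t := by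
      unfold g
      rw [Finset.mul_prod_erase univ (fun i => 1 - (t : 𝕜) * (1 - x i)) (mem_univ j)]
    rw [this]; ring
  rw [← intervalIntegral.integral_const_mul]
  simp only [h2]
  rw [intervalIntegral.integral_sub, intervalIntegral.integral_neg, h1]
  · simp [g]
  · apply Continuous.intervalIntegrable
    have := g_cont x
    fun_prop
  · exact (err_cont x).intervalIntegrable _ _

end

variable {N : ℕ}

lemma g_real (r : Fin N → ℝ) (s : Finset (Fin N)) (t : ℝ) :
    g r s t = ∏ i ∈ s, (1 - t * (1 - r i)) := rfl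

lemma err_real (r : Fin N → ℝ) (t : ℝ) :
    err r t = t * ∑ j, (1 - r j) ^ 2 * g r (univ.erase j) t := rfl

lemma norm_g_le (x : Fin N → ℂ) (s : Finset (Fin N)) (t : ℝ) (h0 : 0 ≤ t) (h1 : t ≤ 1) :
    ‖g x s t‖ ≤ g (fun i => ‖x i‖) s t := by
  rw [g_real]
  unfold g
  rw [norm_prod]
  refine Finset.prod_le_prod (fun _ _ => norm_nonneg _) fun i _ => ?_
  have e : (1 : ℂ) - (t : ℂ) * (1 - x i) = ((1 - t : ℝ) : ℂ) + (t : ℂ) * x i := by
    push_cast; ring
  have e' : ‖(1 : ℂ) - (t : ℂ) * (1 - x i)‖ ≤ 1 - t * (1 - ‖x i‖) := by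
    rw [e]
    refine (norm_add_le _ _).trans ?_
    rw [norm_mul, Complex.norm_real, Complex.norm_real, Real.norm_of_nonneg h0,
      Real.norm_of_nonneg (by linarith)]
    linarith
  exact e'

lemma g_nonneg (r : Fin N → ℝ) (hr : ∀ i, 0 ≤ r i) (s : Finset (Fin N)) (t : ℝ) (h0 : 0 ≤ t)
    (h1 : t ≤ 1) : 0 ≤ g r s t := by
  rw [g_real]
  exact Finset.prod_nonneg fun i _ => by nlinarith [hr i]

lemma g_le_exp (r : Fin N → ℝ) (hr : ∀ i, 0 ≤ r i) (j : Fin N) (t : ℝ) (h0 : 0 ≤ t)
    (h1 : t ≤ 1) (a : ℝ) (ha : a + 1 + ∑ i, r i ≤ N) :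
    g r (univ.erase j) t ≤ Real.exp (-(a * t)) := by
  rw [g_real]
  calc ∏ i ∈ univ.erase j, (1 - t * (1 - r i))
      ≤ ∏ i ∈ univ.erase j, Real.exp (-(t * (1 - r i))) := by
        refine Finset.prod_le_prod (fun i _ => by nlinarith [hr i]) fun i _ => ?_
        have := Real.add_one_le_exp (-(t * (1 - r i)))
        linarith
    _ = Real.exp (∑ i ∈ univ.erase j, -(t * (1 - r i))) := by rw [Real.exp_sum]
    _ ≤ Real.exp (-(a * t)) := by
        apply Real.exp_le_exp.mpr
        have e1 := Finset.add_sum_erase univ (fun i => -(t * (1 - r i))) (mem_univ j)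
        have e2 : ∑ i, -(t * (1 - r i)) = -(t * (N - ∑ i, r i)) := by
          rw [Finset.sum_neg_distrib, ← Finset.mul_sum, Finset.sum_sub_distrib]; simp
        have := hr j
        nlinarith

lemma int_t_exp (a : ℝ) (ha : 0 < a) : ∫ t in (0 : ℝ)..1, t * Real.exp (-(a * t)) ≤ 1 / a ^ 2 := by
  have h : ∀ t ∈ uIcc (0 : ℝ) 1, HasDerivAt (fun t => -((t / a + 1 / a ^ 2) * Real.exp (-(a * t))))
      (t * Real.exp (-(a * t))) t := by
    intro t _
    have h1 : HasDerivAt (fun t : ℝ => t / a + 1 / a ^ 2) (1 / a) t :=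
      ((hasDerivAt_id t).div_const a).add_const _
    have h2 : HasDerivAt (fun t : ℝ => Real.exp (-(a * t))) (Real.exp (-(a * t)) * (-a)) t := by
      simpa using ((hasDerivAt_id t).const_mul a).neg.exp
    have h3 := (h1.mul h2).neg
    have e : t * Real.exp (-(a * t)) = -(1 / a * Real.exp (-(a * t))
        + (t / a + 1 / a ^ 2) * (Real.exp (-(a * t)) * (-a))) := by
      field_simp
      ring
    rw [e]
    exact h3
  rw [intervalIntegral.integral_eq_sub_of_hasDerivAt h
    (Continuous.intervalIntegrable (by fun_prop) _ _)]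
  have : 0 < (1 / a + 1 / a ^ 2) * Real.exp (-(a * 1)) := by positivity
  simp only [zero_div, zero_add, mul_zero, neg_zero, Real.exp_zero, mul_one] at this ⊢
  linarith

theorem core (x : Fin N → ℂ) (a : ℝ) (ha0 : 0 < a) (ha : a + 1 + ∑ i, ‖x i‖ ≤ N) :
    (a + 1) / (N + 1) - 4 * N / a ^ 2 ≤ 2 * N * ‖∫ t in (0 : ℝ)..1, g x univ t‖ := by
  set r : Fin N → ℝ := fun i => ‖x i‖ with hr
  have hr0 : ∀ i, 0 ≤ r i := fun i => norm_nonneg _
  have hS : 0 ≤ ∑ i, r i := Finset.sum_nonneg fun i _ => hr0 i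
  have h1 := ident x
  have h2 := ident r
  have h3 : ‖∫ t in (0 : ℝ)..1, err x t‖
      ≤ ∫ t in (0 : ℝ)..1, (err r t + 4 * N * (t * Real.exp (-(a * t)))) := by
    apply intervalIntegral.norm_integral_le_of_norm_le zero_le_one
    · refine ae_of_all _ fun t ht => ?_
      have h0 := ht.1.le
      have h1 := ht.2
      have b1 : ‖err x t‖ ≤ t * ∑ j, (1 + r j) ^ 2 * g r (univ.erase j) t := by
        unfold err
        rw [norm_mul]
        have : ‖((t : ℝ) : ℂ)‖ = t := by rw [Complex.norm_real, Real.norm_of_nonneg h0]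
        erw [this]
        refine mul_le_mul_of_nonneg_left ((norm_sum_le _ _).trans
          (Finset.sum_le_sum fun j _ => ?_)) h0
        rw [norm_mul, norm_pow]
        have : ‖1 - x j‖ ≤ 1 + r j := by simpa using norm_sub_le 1 (x j)
        exact mul_le_mul (by gcongr) (norm_g_le x _ t h0 h1) (norm_nonneg _) (by positivity)
      have b2 : ∑ j, (1 + r j) ^ 2 * g r (univ.erase j) t
          ≤ ∑ j, (1 - r j) ^ 2 * g r (univ.erase j) t + 4 * N * Real.exp (-(a * t)) := by
        have : ∑ j, (1 + r j) ^ 2 * g r (univ.erase j) t ≤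
            ∑ j, ((1 - r j) ^ 2 * g r (univ.erase j) t + 4 * r j * Real.exp (-(a * t))) := by
          refine Finset.sum_le_sum fun j _ => ?_
          have := g_le_exp r hr0 j t h0 h1 a ha
          have := hr0 j
          nlinarith
        rw [Finset.sum_add_distrib, ← Finset.sum_mul, ← Finset.mul_sum] at this
        have h5 : ∑ i, r i ≤ N := by linarith
        have := mul_le_mul_of_nonneg_right h5 (Real.exp_pos (-(a * t))).le
        nlinarith
      rw [err_real]
      nlinarith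
    · apply Continuous.intervalIntegrable
      have := err_cont r
      fun_prop
  rw [intervalIntegral.integral_add ((err_cont r).intervalIntegrable _ _)
    (Continuous.intervalIntegrable (by fun_prop) _ _), intervalIntegral.integral_const_mul] at h3
  have h4 := int_t_exp a ha0
  have h5 : 1 / ((N : ℝ) + 1) ≤ ∫ t in (0 : ℝ)..1, g r univ t := by
    have e : ∫ t in (0 : ℝ)..1, (1 - t) ^ N = 1 / ((N : ℝ) + 1) := by
      rw [intervalIntegral.integral_comp_sub_left (fun t => t ^ N) 1]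
      simp
    rw [← e]
    apply intervalIntegral.integral_mono_on zero_le_one
      (Continuous.intervalIntegrable (by fun_prop) _ _) ((g_cont r _).intervalIntegrable _ _)
    intro t ht
    rw [g_real]
    have : (1 - t) ^ N = ∏ _i : Fin N, (1 - t) := by simp
    rw [this]
    exact Finset.prod_le_prod (fun _ _ => by linarith [ht.2]) fun i _ => by
      nlinarith [hr0 i, ht.1]
  have h6 : ‖∏ j, x j‖ = ∏ j, r j := norm_prod _ _
  have h7 : ‖(N : ℂ) - ∑ j, x j‖ ≤ 2 * N := by
    refine (norm_sub_le _ _).trans ?_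
    have := norm_sum_le univ x
    rw [Complex.norm_natCast]
    linarith
  have h8 : 1 - ‖∏ j, x j‖ - ‖∫ t in (0 : ℝ)..1, err x t‖
      ≤ 2 * N * ‖∫ t in (0 : ℝ)..1, g x univ t‖ := by
    have a1 : (1 : ℝ) ≤ ‖((N : ℂ) - ∑ j, x j) * ∫ t in (0 : ℝ)..1, g x univ t‖ + ‖∏ j, x j‖
        + ‖∫ t in (0 : ℝ)..1, err x t‖ := by
      have e : (1 : ℂ) = ((N : ℂ) - ∑ j, x j) * (∫ t in (0 : ℝ)..1, g x univ t) + ∏ j, x j
          + ∫ t in (0 : ℝ)..1, err x t := by rw [h1]; ring
      calc (1 : ℝ) = ‖(1 : ℂ)‖ := by simp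
        _ ≤ _ := by rw [e]; exact norm_add₃_le
    rw [norm_mul] at a1
    have := mul_le_mul_of_nonneg_right h7 (norm_nonneg (∫ t in (0 : ℝ)..1, g x univ t))
    linarith
  have hN : (0 : ℝ) ≤ N := Nat.cast_nonneg N
  have h9 : (a + 1) / (N + 1) ≤ ((N : ℝ) - ∑ j, r j) * ∫ t in (0 : ℝ)..1, g r univ t := by
    rw [div_eq_mul_one_div]
    exact mul_le_mul (by linarith) h5 (by positivity) (by linarith)
  have h10 : 4 * (N : ℝ) * ∫ t in (0 : ℝ)..1, t * Real.exp (-(a * t)) ≤ 4 * N / a ^ 2 := by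
    rw [div_eq_mul_one_div]
    exact mul_le_mul_of_nonneg_left h4 (by positivity)
  linarith

end Pool.Agent.H496Z.Var
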