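import Mathlib

/-!
The de Bruijn - Springer inequality: the sum of the distances from the critical points of a
polynomial to a point is at most the sum of the distances from its zeros to that point.
-/

open Polynomial Real Complex MeasureTheory Set Filter

namespace Pool.Agent.H496Z.Var

/-- the monic polynomial with the given zeros -/
noncomputable def P {n : ℕ} (y : Fin n → ℂ) : ℂ[X] := ∏ k, (X - C (y k))

lemma P_monic {n : ℕ} (y : Fin n → ℂ) : (P y).Monic := monic_prod_X_sub_C _ _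

lemma P_roots {n : ℕ} (y : Fin n → ℂ) : (P y).roots = Finset.univ.val.map y := by
  have : P y = ((Finset.univ.val.map y).map fun a => X - C a).prod := by
    rw [Multiset.map_map]; rfl
  rw [this, roots_multiset_prod_X_sub_C]

lemma P_natDegree {n : ℕ} (y : Fin n → ℂ) : (P y).natDegree = n := by
  unfold P
  rw [natDegree_prod_of_monic _ _ (fun i _ => monic_X_sub_C _)]
  simp

lemma P_eval {n : ℕ} (y : Fin n → ℂ) (z : ℂ) : (P y).eval z = ∏ k, (z - y k) := by
  simp [P, eval_prod]

lemma P_deriv_eval {n : ℕ} (y : Fin n → ℂ) (z : ℂ) (hz : ∀ k, z ≠ y k) :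
    (derivative (P y)).eval z = (P y).eval z * ∑ k, (z - y k)⁻¹ := by
  rw [P_eval]
  unfold P
  rw [derivative_prod_finset, eval_finsetSum, Finset.mul_sum]
  refine Finset.sum_congr rfl fun k _ => ?_
  rw [← Finset.mul_prod_erase Finset.univ (fun j => z - y j) (Finset.mem_univ k)]
  have := sub_ne_zero.mpr (hz k)
  simp [eval_prod]
  field_simp

lemma logM_C_mul_P {n : ℕ} (a : ℂ) (ha : a ≠ 0) (y : Fin n → ℂ) :
    (C a * P y).logMahlerMeasure = Real.log ‖a‖ + ∑ k, log⁺ ‖y k‖ := by
  rw [logMahlerMeasure_eq_log_leadingCoeff_add_sum_log_roots, roots_C_mul _ ha, P_roots,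
    leadingCoeff_mul, (P_monic y).leadingCoeff, Multiset.map_map]
  simp [List.sum_ofFn]

lemma logM_mono (p q : ℂ[X]) (hp : p ≠ 0) (r : ℂ[X]) (hr : r ≠ 0)
    (h : ∀ z, ‖z‖ = 1 → r.eval z ≠ 0 → ‖p.eval z‖ ≤ ‖q.eval z‖) :
    p.logMahlerMeasure ≤ q.logMahlerMeasure := by
  rw [logMahlerMeasure_def, logMahlerMeasure_def, circleAverage_def, circleAverage_def,
    smul_eq_mul, smul_eq_mul]
  gcongr
  apply intervalIntegral.integral_mono_ae_restrict (by positivity)
    p.intervalIntegrable_mahlerMeasure q.intervalIntegrable_mahlerMeasure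
  rw [EventuallyLE, eventually_iff_exists_mem]
  use {x : ℝ | eval (circleMap 0 1 x) (p * r) ≠ 0}
  have hpr : p * r ≠ 0 := mul_ne_zero hp hr
  constructor
  · rw [mem_ae_iff, compl_def, Measure.restrict_apply' (by simp)]
    apply (Finite.of_sdiff _ <| finite_singleton (2 * π)).measure_zero
    simp only [ne_eq, mem_ofPred_eq, Decidable.not_not, inter_sdiff_assoc, Icc_sdiff_right]
    rw [ofPred_inter_eq_sep]
    apply Finite.of_finite_image (f := circleMap 0 1)
      ((Multiset.finite_toSet (p * r).roots).subset _)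
      <| fun _ h _ k l ↦ injOn_circleMap_of_abs_sub_le' one_ne_zero (by linarith) h.1 k.1 l
    rintro _ ⟨x, hx, rfl⟩
    exact (mem_roots hpr).mpr hx.2
  · intro x hx
    simp only [mem_ofPred_eq, eval_mul, ne_eq, mul_eq_zero, not_or] at hx
    exact Real.log_le_log (norm_pos_iff.mpr hx.1) (h _ (by simp) hx.2)

/-- reflection of a point into the closed unit disc -/
noncomputable def refl (y : ℂ) : ℂ := if ‖y‖ ≤ 1 then y else (starRingEnd ℂ y)⁻¹

/-- the factor attached to the reflection -/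
noncomputable def fac (y : ℂ) : ℂ := if ‖y‖ ≤ 1 then 1 else y

lemma norm_refl_le (y : ℂ) : ‖refl y‖ ≤ 1 := by
  unfold refl
  split_ifs with h
  · exact h
  · rw [norm_inv, Complex.norm_conj]
    exact inv_le_one_of_one_le₀ (le_of_lt (not_le.mp h))

lemma fac_ne (y : ℂ) : fac y ≠ 0 := by
  unfold fac
  split_ifs with h
  · exact one_ne_zero
  · rintro rfl; simp at h

lemma log_fac (y : ℂ) : Real.log ‖fac y‖ = log⁺ ‖y‖ := by
  unfold fac
  split_ifs with h
  · rw [(posLog_eq_zero_iff _).mpr (by simpa using h)]; simp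
  · rw [posLog_eq_log (by simpa using le_of_lt (not_le.mp h))]

lemma conj_eq_inv {z : ℂ} (hz : ‖z‖ = 1) : starRingEnd ℂ z = z⁻¹ := by
  have h0 : z ≠ 0 := by rintro rfl; simp at hz
  have : z * starRingEnd ℂ z = 1 := by
    rw [Complex.mul_conj, Complex.normSq_eq_norm_sq, hz]; simp
  field_simp
  rw [mul_comm] at this
  simpa [mul_comm] using this

lemma norm_sub_refl (y z : ℂ) (hz : ‖z‖ = 1) : ‖z - y‖ = ‖fac y‖ * ‖z - refl y‖ := by
  unfold fac refl
  split_ifs with h
  · simp
  · have hy : y ≠ 0 := by rintro rfl; simp at h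
    have hy' : starRingEnd ℂ y ≠ 0 := by simpa using hy
    have h0 : z ≠ 0 := by rintro rfl; simp at hz
    have e1 : starRingEnd ℂ y * (z - (starRingEnd ℂ y)⁻¹) = -z * starRingEnd ℂ (z - y) := by
      rw [map_sub, conj_eq_inv hz]; field_simp; ring
    have := congrArg norm e1
    rw [norm_mul, norm_mul, Complex.norm_conj, Complex.norm_conj, norm_neg, hz, one_mul] at this
    exact this.symm

lemma re_ge_half (y z : ℂ) (hz : ‖z‖ = 1) (hy : ‖y‖ ≤ 1) (hne : z ≠ y) :
    1 / 2 ≤ (z * (z - y)⁻¹).re := by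
  have h1 : z.re ^ 2 + z.im ^ 2 = 1 := by
    have := Complex.sq_norm z
    rw [hz, Complex.normSq_apply] at this; nlinarith
  have h2 : y.re ^ 2 + y.im ^ 2 ≤ 1 := by
    have := Complex.sq_norm y
    rw [Complex.normSq_apply] at this
    nlinarith [norm_nonneg y]
  have h3 : 0 < Complex.normSq (z - y) := Complex.normSq_pos.mpr (sub_ne_zero.mpr hne)
  rw [← div_eq_mul_inv, Complex.div_re, ← add_div, le_div_iff₀ h3, Complex.normSq_apply]
  simp only [Complex.sub_re, Complex.sub_im]
  nlinarith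

lemma refl_quot (y z : ℂ) (hz : ‖z‖ = 1) (hne : z ≠ y) (hne' : z ≠ refl y) :
    |(z * (z - y)⁻¹).re| ≤ (z * (z - refl y)⁻¹).re ∧
      (z * (z - y)⁻¹).im = (z * (z - refl y)⁻¹).im := by
  have h := re_ge_half (refl y) z hz (norm_refl_le y) hne'
  by_cases hy : ‖y‖ ≤ 1
  · have : refl y = y := by simp [refl, hy]
    rw [this] at h ⊢
    exact ⟨by rw [abs_of_nonneg (by linarith)], rfl⟩
  · have e : refl y = (starRingEnd ℂ y)⁻¹ := by simp [refl, hy]
    have hy0 : y ≠ 0 := by rintro rfl; simp at hy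
    have hy' : starRingEnd ℂ y ≠ 0 := by simpa using hy0
    have h0 : z ≠ 0 := by rintro rfl; simp at hz
    have h4 : z - refl y ≠ 0 := sub_ne_zero.mpr hne'
    have h5 : z * starRingEnd ℂ y - 1 ≠ 0 := by
      intro h6
      apply h4
      rw [e]; field_simp; linear_combination h6
    have h6 : 1 - z * starRingEnd ℂ y ≠ 0 := by
      intro h7; apply h5; linear_combination -h7
    have e1 : starRingEnd ℂ (z * (z - y)⁻¹) = 1 - z * (z - refl y)⁻¹ := by
      rw [e, map_mul, map_inv₀, map_sub, conj_eq_inv hz]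
      field_simp
      ring
    have e2 := congrArg Complex.re e1
    have e3 := congrArg Complex.im e1
    simp only [Complex.conj_re, Complex.conj_im, Complex.sub_re, Complex.sub_im, Complex.one_re,
      Complex.one_im] at e2 e3
    refine ⟨?_, by linarith⟩
    rw [abs_le]; constructor <;> linarith

lemma deriv_le_refl {n : ℕ} (y : Fin n → ℂ) (z : ℂ) (hz : ‖z‖ = 1) (h1 : ∀ k, z ≠ y k)
    (h2 : ∀ k, z ≠ refl (y k)) :
    ‖(derivative (P y)).eval z‖ ≤
      ‖(C (∏ k, fac (y k)) * derivative (P fun k => refl (y k))).eval z‖ := by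
  rw [eval_mul, eval_C, P_deriv_eval _ _ h1, P_deriv_eval _ _ h2, P_eval, P_eval, ← mul_assoc,
    norm_mul, norm_mul, norm_mul, norm_prod, norm_prod, norm_prod, ← Finset.prod_mul_distrib]
  have e : ∏ k, ‖z - y k‖ = ∏ k, ‖fac (y k)‖ * ‖z - refl (y k)‖ :=
    Finset.prod_congr rfl fun k _ => norm_sub_refl _ _ hz
  rw [e]
  gcongr
  have a1 : ‖∑ k, (z - y k)⁻¹‖ = ‖∑ k, z * (z - y k)⁻¹‖ := by
    rw [← Finset.mul_sum, norm_mul, hz, one_mul]
  have a2 : ‖∑ k, (z - refl (y k))⁻¹‖ = ‖∑ k, z * (z - refl (y k))⁻¹‖ := by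
    rw [← Finset.mul_sum, norm_mul, hz, one_mul]
  rw [a1, a2]
  have b1 : |(∑ k, z * (z - y k)⁻¹).re| ≤ (∑ k, z * (z - refl (y k))⁻¹).re := by
    rw [Complex.re_sum, Complex.re_sum]
    exact (Finset.abs_sum_le_sum_abs _ _).trans
      (Finset.sum_le_sum fun k _ => (refl_quot _ _ hz (h1 k) (h2 k)).1)
  have b2 : (∑ k, z * (z - y k)⁻¹).im = (∑ k, z * (z - refl (y k))⁻¹).im := by
    rw [Complex.im_sum, Complex.im_sum]
    exact Finset.sum_congr rfl fun k _ => (refl_quot _ _ hz (h1 k) (h2 k)).2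
  rw [← sq_le_sq₀ (norm_nonneg _) (norm_nonneg _), Complex.sq_norm, Complex.sq_norm,
    Complex.normSq_apply, Complex.normSq_apply, b2]
  have := abs_le.mp b1
  nlinarith

lemma deriv_ne {n : ℕ} (y : Fin (n + 1) → ℂ) : derivative (P y) ≠ 0 := by
  intro h
  have := leadingCoeff_derivative (P y)
  rw [h, (P_monic y).leadingCoeff, P_natDegree] at this
  simp at this
  exact absurd this (by exact_mod_cast Nat.succ_ne_zero n)

lemma logM_deriv_inside {n : ℕ} (y : Fin (n + 1) → ℂ) (hy : ∀ k, ‖y k‖ ≤ 1) :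
    (derivative (P y)).logMahlerMeasure = Real.log (n + 1) := by
  rw [logMahlerMeasure_eq_log_leadingCoeff_add_sum_log_roots, leadingCoeff_derivative,
    (P_monic y).leadingCoeff, P_natDegree]
  have h0 : ((derivative (P y)).roots.map (fun a ↦ log⁺ ‖a‖)).sum = 0 := by
    apply Multiset.sum_eq_zero
    intro t ht
    obtain ⟨a, ha, rfl⟩ := Multiset.mem_map.mp ht
    have hdeg : 0 < (P y).degree := by
      rw [← natDegree_pos_iff_degree_pos, P_natDegree]; omega
    have h1 : a ∈ (derivative (P y)).rootSet ℂ := by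
      rw [mem_rootSet]
      exact ⟨deriv_ne y, by simpa using ((mem_roots (deriv_ne y)).mp ha)⟩
    have h2 := rootSet_derivative_subset_convexHull_rootSet hdeg h1
    have h3 : convexHull ℝ ((P y).rootSet ℂ) ⊆ Metric.closedBall (0 : ℂ) 1 := by
      apply convexHull_min _ (convex_closedBall _ _)
      intro b hb
      rw [mem_rootSet] at hb
      have hb' : b ∈ (P y).roots := (mem_roots hb.1).mpr (by simpa using hb.2)
      rw [P_roots] at hb'
      obtain ⟨k, -, rfl⟩ := Multiset.mem_map.mp hb'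
      simpa using hy k
    rw [posLog_eq_zero_iff]
    simpa using h3 h2
  rw [h0, add_zero, one_mul]
  congr 1
  rw [Complex.norm_natCast]; push_cast; ring

lemma posLog_sum_le {n : ℕ} (y : Fin (n + 1) → ℂ) (w : Fin n → ℂ)
    (h : derivative (P y) = C ((n : ℂ) + 1) * P w) :
    ∑ j, log⁺ ‖w j‖ ≤ ∑ k, log⁺ ‖y k‖ := by
  have hn : ((n : ℂ) + 1) ≠ 0 := by exact_mod_cast Nat.succ_ne_zero n
  have ha : (∏ k, fac (y k)) ≠ 0 := Finset.prod_ne_zero_iff.mpr fun k _ => fac_ne _
  have h1 := logM_mono (derivative (P y))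
    (C (∏ k, fac (y k)) * derivative (P fun k => refl (y k))) (deriv_ne y)
    (P y * P fun k => refl (y k)) (mul_ne_zero (P_monic _).ne_zero (P_monic _).ne_zero) (by
      intro z hz hr
      rw [eval_mul, P_eval, P_eval, mul_ne_zero_iff, Finset.prod_ne_zero_iff,
        Finset.prod_ne_zero_iff] at hr
      exact deriv_le_refl y z hz (fun k => sub_ne_zero.mp (hr.1 k (Finset.mem_univ _)))
        (fun k => sub_ne_zero.mp (hr.2 k (Finset.mem_univ _))))
  rw [logMahlerMeasure_C_mul ha (deriv_ne _), logM_deriv_inside _ (fun k => norm_refl_le _), h,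
    logM_C_mul_P _ hn, norm_prod, Real.log_prod (fun k _ => norm_ne_zero_iff.mpr (fac_ne _))] at h1
  simp only [log_fac] at h1
  have e : ‖(n : ℂ) + 1‖ = (n : ℝ) + 1 := by
    have : ((n : ℂ) + 1) = ((n + 1 : ℕ) : ℂ) := by push_cast; ring
    rw [this, Complex.norm_natCast]; push_cast; ring
  rw [e] at h1
  linarith

lemma P_affine {n : ℕ} (y : Fin n → ℂ) (c R : ℂ) (hR : R ≠ 0) :
    (P y).comp (C R * X + C c) = C (R ^ n) * P (fun k => (y k - c) / R) := by
  apply Polynomial.funext
  intro t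
  rw [eval_comp, eval_mul, P_eval, P_eval, eval_C]
  have : R ^ n = ∏ _k : Fin n, R := by simp
  rw [this, ← Finset.prod_mul_distrib]
  refine Finset.prod_congr rfl fun k _ => ?_
  simp
  field_simp
  ring

lemma deriv_affine {n : ℕ} (y : Fin (n + 1) → ℂ) (w : Fin n → ℂ)
    (h : derivative (P y) = C ((n : ℂ) + 1) * P w) (c R : ℂ) (hR : R ≠ 0) :
    derivative (P fun k => (y k - c) / R) = C ((n : ℂ) + 1) * P (fun j => (w j - c) / R) := by
  have h1 := congrArg derivative (P_affine y c R hR)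
  rw [derivative_comp, h, mul_comp, C_comp, P_affine w c R hR, derivative_C_mul] at h1
  have h2 : (C (R ^ (n + 1)) : ℂ[X]) ≠ 0 := by
    rw [ne_eq, C_eq_zero]; exact pow_ne_zero _ hR
  apply mul_left_cancel₀ h2
  rw [← h1]
  simp only [derivative_add, derivative_mul, derivative_C, derivative_X, zero_mul, mul_one,
    zero_add, add_zero, pow_succ, map_mul]
  ring

lemma integral_posLog (ρ A : ℝ) (h0 : 0 ≤ ρ) (hA : ρ ≤ A) :
    IntervalIntegrable (fun R => log⁺ (ρ / R)) volume 0 A ∧ ∫ R in (0 : ℝ)..A, log⁺ (ρ / R) = ρ := by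
  rcases eq_or_lt_of_le h0 with rfl | hpos
  · simp
  have e1 : EqOn (fun R => log⁺ (ρ / R)) (fun R => Real.log ρ - Real.log R) (uIoc 0 ρ) := by
    intro R hR
    rw [uIoc_of_le h0] at hR
    have : 1 ≤ ρ / R := by rw [le_div_iff₀ hR.1]; linarith [hR.2]
    simp only
    rw [posLog_eq_log (by rw [abs_of_nonneg (by linarith)]; exact this),
      Real.log_div hpos.ne' hR.1.ne']
  have e2 : EqOn (fun R => log⁺ (ρ / R)) (fun _ => 0) (uIoc ρ A) := by
    intro R hR
    rw [uIoc_of_le hA] at hR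
    have hR0 : 0 < R := lt_trans hpos hR.1
    simp only
    rw [posLog_eq_zero_iff, abs_of_nonneg (by positivity), div_le_one hR0]
    exact hR.1.le
  have i1 : IntervalIntegrable (fun R => log⁺ (ρ / R)) volume 0 ρ :=
    (intervalIntegrable_congr e1).mpr
      (intervalIntegrable_const.sub intervalIntegral.intervalIntegrable_log')
  have i2 : IntervalIntegrable (fun R => log⁺ (ρ / R)) volume ρ A :=
    (intervalIntegrable_congr e2).mpr intervalIntegrable_const
  refine ⟨i1.trans i2, ?_⟩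
  rw [← intervalIntegral.integral_add_adjacent_intervals i1 i2,
    intervalIntegral.integral_congr_ae (ae_of_all _ e1),
    intervalIntegral.integral_congr_ae (ae_of_all _ e2),
    intervalIntegral.integral_sub intervalIntegrable_const intervalIntegral.intervalIntegrable_log',
    integral_log]
  simp

theorem dbs {n : ℕ} (y : Fin (n + 1) → ℂ) (w : Fin n → ℂ)
    (h : derivative (P y) = C ((n : ℂ) + 1) * P w) (c : ℂ) :
    ∑ j, ‖w j - c‖ ≤ ∑ k, ‖y k - c‖ := by
  set A := ∑ j, ‖w j - c‖ + ∑ k, ‖y k - c‖ with hA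
  have hw : ∀ j, ‖w j - c‖ ≤ A := fun j => by
    have := Finset.single_le_sum (f := fun j => ‖w j - c‖) (fun _ _ => norm_nonneg _)
      (Finset.mem_univ j)
    have : 0 ≤ ∑ k, ‖y k - c‖ := Finset.sum_nonneg fun _ _ => norm_nonneg _
    linarith
  have hy : ∀ k, ‖y k - c‖ ≤ A := fun k => by
    have := Finset.single_le_sum (f := fun k => ‖y k - c‖) (fun _ _ => norm_nonneg _)
      (Finset.mem_univ k)
    have : 0 ≤ ∑ j, ‖w j - c‖ := Finset.sum_nonneg fun _ _ => norm_nonneg _
    linarith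
  have hA0 : 0 ≤ A := (norm_nonneg _).trans (hy 0)
  have e1 : ∑ j, ‖w j - c‖ = ∫ R in (0 : ℝ)..A, ∑ j, log⁺ (‖w j - c‖ / R) := by
    rw [intervalIntegral.integral_finsetSum
      fun j _ => (integral_posLog _ A (norm_nonneg _) (hw j)).1]
    exact Finset.sum_congr rfl fun j _ => (integral_posLog _ A (norm_nonneg _) (hw j)).2.symm
  have e2 : ∑ k, ‖y k - c‖ = ∫ R in (0 : ℝ)..A, ∑ k, log⁺ (‖y k - c‖ / R) := by
    rw [intervalIntegral.integral_finsetSum
      fun k _ => (integral_posLog _ A (norm_nonneg _) (hy k)).1]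
    exact Finset.sum_congr rfl fun k _ => (integral_posLog _ A (norm_nonneg _) (hy k)).2.symm
  rw [e1, e2]
  apply intervalIntegral.integral_mono_on hA0
  · have := IntervalIntegrable.sum (μ := volume) (a := 0) (b := A) Finset.univ
      (f := fun j R => log⁺ (‖w j - c‖ / R))
      fun j _ => (integral_posLog _ A (norm_nonneg _) (hw j)).1
    rw [Finset.sum_fn] at this
    exact this
  · have := IntervalIntegrable.sum (μ := volume) (a := 0) (b := A) Finset.univ
      (f := fun k R => log⁺ (‖y k - c‖ / R))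
      fun k _ => (integral_posLog _ A (norm_nonneg _) (hy k)).1
    rw [Finset.sum_fn] at this
    exact this
  · intro R hR
    rcases eq_or_lt_of_le hR.1 with rfl | hpos
    · simp
    have hR' : (R : ℂ) ≠ 0 := by exact_mod_cast hpos.ne'
    have := posLog_sum_le _ _ (deriv_affine y w h c R hR')
    simpa [norm_div, abs_of_pos hpos] using this

end Pool.Agent.H496Z.Var
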