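import Mathlib

/-!
The p-variance of the zeros of a complex polynomial and the one-sided Hausdorff distance from its
zeros to its critical points.
-/

open Polynomial

namespace Pool.Agent.H496Z.Var

/-- The `p`-variance `σ_p(F) = min_c ((1/n) ∑_k |z_k - c|^p)^(1/p)` of the zeros `z_k` of `F`,
listed with multiplicity, where `n` is the degree of `F`. -/
noncomputable def sigma (p : ℝ) (F : ℂ[X]) : ℝ :=
  ⨅ c : ℂ, ((F.roots.map fun z => ‖z - c‖ ^ p).sum / F.natDegree) ^ (1 / p)

/-- The one-sided Hausdorff distance `h(F, F') = max_{F(z) = 0} min_{F'(w) = 0} |z - w|`. -/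
noncomputable def hdist (F : ℂ[X]) : ℝ :=
  sSup ((fun z => Metric.infDist z {w | (derivative F).IsRoot w}) '' {z | F.IsRoot z})

end Pool.Agent.H496Z.Var
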