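import Pool.Agent.H496Z.Var.DBS
import Pool.Agent.H496Z.Var.Core
import Pool.Agent.H496Z.Var.Defs

/-!
The asymptotic p-variance bound.
-/

open Polynomial Real MeasureTheory Set Finset Filter Topology

namespace Pool.Agent.H496Z.Var

lemma segment_eq {N : ℕ} (z : Fin (N + 1) → ℂ) (w : Fin N → ℂ)
    (hd : derivative (P z) = C ((N : ℂ) + 1) * P w) (k0 : Fin (N + 1)) (c : ℂ)
    (hw : ∀ j, z k0 ≠ w j) :
    (P z).eval c = (c - z k0) * ((N : ℂ) + 1) * (∏ j, (z k0 - w j)) *
      ∫ t in (0 : ℝ)..1, g (fun j => (w j - c) / (w j - z k0)) univ t := by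
  set x : Fin N → ℂ := fun j => (w j - c) / (w j - z k0) with hx
  have h1 : ∀ t ∈ uIcc (0 : ℝ) 1,
      HasDerivAt (fun t : ℝ => (P z).eval (z k0 + (t : ℂ) * (c - z k0)))
        ((c - z k0) * ((N : ℂ) + 1) * (∏ j, (z k0 - w j)) * g x univ t) t := by
    intro t _
    have a1 : HasDerivAt (fun t : ℝ => (t : ℂ)) 1 t := by
      exact Complex.ofRealCLM.hasDerivAt (x := t)
    have a2 : HasDerivAt (fun t : ℝ => z k0 + (t : ℂ) * (c - z k0)) (c - z k0) t := by
      simpa using (a1.mul_const (c - z k0)).const_add (z k0)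
    have a3 := ((P z).hasDerivAt (z k0 + (t : ℂ) * (c - z k0))).comp_of_eq t a2 rfl
    have e : (c - z k0) * ((N : ℂ) + 1) * (∏ j, (z k0 - w j)) * g x univ t
        = eval (z k0 + (t : ℂ) * (c - z k0)) (derivative (P z)) * (c - z k0) := by
      rw [hd, eval_mul, eval_C, P_eval]
      have : ∏ j, (z k0 + (t : ℂ) * (c - z k0) - w j) = (∏ j, (z k0 - w j)) * g x univ t := by
        unfold g
        rw [← Finset.prod_mul_distrib]
        refine Finset.prod_congr rfl fun j _ => ?_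
        have : w j - z k0 ≠ 0 := sub_ne_zero.mpr (hw j).symm
        simp only [hx]
        change _ = (z k0 - w j) * (1 - (t : ℂ) * (1 - (w j - c) / (w j - z k0)))
        field_simp
        ring
      rw [this]; ring
    rw [e]
    exact a3
  have h2 := intervalIntegral.integral_eq_sub_of_hasDerivAt h1
    (Continuous.intervalIntegrable (by have := g_cont x univ; fun_prop) _ _)
  rw [intervalIntegral.integral_const_mul] at h2
  rw [h2]
  have h3 : (P z).eval (z k0) = 0 := by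
    rw [P_eval]
    exact Finset.prod_eq_zero (mem_univ k0) (sub_self _)
  simp [h3]

lemma main_fin {M : ℕ} (z : Fin (M + 2) → ℂ) (w : Fin (M + 1) → ℂ)
    (hd : derivative (P z) = C (((M + 1 : ℕ) : ℂ) + 1) * P w) (k0 : Fin (M + 2)) (c : ℂ)
    (h : ℝ) (hh : 0 < h) (hw : ∀ j, h ≤ ‖z k0 - w j‖) (δ : ℝ) (hδ : 0 < δ) (hδ1 : δ ≤ 1)
    (hM : 10 < δ ^ 3 * M) : (1 - δ) * M * h < ∑ k, ‖z k - c‖ := by
  by_contra hc
  push Not at hc
  have hM10 : (10 : ℝ) < M := by
    have : δ ^ 3 ≤ 1 := pow_le_one₀ hδ.le hδ1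
    have : (0 : ℝ) ≤ M := Nat.cast_nonneg M
    nlinarith
  have hne : ∀ j, z k0 ≠ w j := fun j e => by
    have := hw j
    rw [e, sub_self, norm_zero] at this
    linarith
  set x : Fin (M + 1) → ℂ := fun j => (w j - c) / (w j - z k0) with hx
  have hxs : ∑ j, ‖x j‖ ≤ (1 - δ) * M := by
    have b1 : ∑ j, ‖x j‖ ≤ ∑ j, ‖w j - c‖ / h := by
      refine Finset.sum_le_sum fun j _ => ?_
      rw [hx, norm_div, norm_sub_rev (w j) (z k0)]
      exact div_le_div_of_nonneg_left (norm_nonneg _) hh (hw j)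
    rw [← Finset.sum_div] at b1
    refine b1.trans ?_
    rw [div_le_iff₀ hh]
    exact (dbs z w hd c).trans hc
  have ha0 : 0 < δ * M := by positivity
  have hcore := core x (δ * M) ha0 (by push_cast; linarith)
  set I := ‖∫ t in (0 : ℝ)..1, g x univ t‖ with hI
  have hcz : c ≠ z k0 := by
    intro e
    have : ∀ j, ‖x j‖ = 1 := fun j => by
      rw [hx]
      simp only [e]
      rw [div_self (sub_ne_zero.mpr (hne j).symm), norm_one]
    simp only [this, Finset.sum_const, card_univ, Fintype.card_fin, nsmul_eq_mul, mul_one] at hxs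
    push_cast at hxs
    nlinarith
  have hD : 0 < ‖c - z k0‖ := norm_pos_iff.mpr (sub_ne_zero.mpr hcz)
  have hseg := congrArg norm (segment_eq z w hd k0 c hne)
  rw [P_eval, ← Finset.mul_prod_erase univ (fun k => c - z k) (mem_univ k0), norm_mul, norm_mul,
    norm_mul, norm_mul, norm_prod, norm_prod, mul_assoc, mul_assoc] at hseg
  have hseg2 := mul_left_cancel₀ hD.ne' hseg
  have e : ‖((M + 1 : ℕ) : ℂ) + 1‖ = (M : ℝ) + 2 := by
    have : (((M + 1 : ℕ) : ℂ) + 1) = ((M + 2 : ℕ) : ℂ) := by push_cast; ring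
    rw [this, Complex.norm_natCast]; push_cast; ring
  rw [e] at hseg2
  have b2 : h ^ (M + 1) ≤ ∏ j, ‖z k0 - w j‖ := by
    have : h ^ (M + 1) = ∏ _j : Fin (M + 1), h := by simp
    rw [this]
    exact Finset.prod_le_prod (fun _ _ => hh.le) fun j _ => hw j
  have b3 : ∏ k ∈ univ.erase k0, ‖c - z k‖ ≤ h ^ (M + 1) * Real.exp (-(δ * M)) := by
    have hcard : (univ.erase k0).card = M + 1 := by simp
    calc ∏ k ∈ univ.erase k0, ‖c - z k‖
        ≤ ∏ k ∈ univ.erase k0, h * Real.exp (‖z k - c‖ / h - 1) := by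
          refine Finset.prod_le_prod (fun _ _ => norm_nonneg _) fun k _ => ?_
          have := Real.add_one_le_exp (‖z k - c‖ / h - 1)
          rw [norm_sub_rev]
          calc ‖z k - c‖ = h * (‖z k - c‖ / h) := by field_simp
            _ ≤ _ := mul_le_mul_of_nonneg_left (by linarith) hh.le
      _ = h ^ (M + 1) * Real.exp (∑ k ∈ univ.erase k0, (‖z k - c‖ / h - 1)) := by
          rw [Finset.prod_mul_distrib, Finset.prod_const, hcard, Real.exp_sum]
      _ ≤ h ^ (M + 1) * Real.exp (-(δ * M)) := by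
          gcongr
          rw [Finset.sum_sub_distrib, ← Finset.sum_div, Finset.sum_const, hcard]
          have a1 : ∑ k ∈ univ.erase k0, ‖z k - c‖ ≤ ∑ k, ‖z k - c‖ :=
            Finset.sum_le_sum_of_subset_of_nonneg (Finset.subset_univ _) fun _ _ _ => norm_nonneg _
          have a2 : (∑ k ∈ univ.erase k0, ‖z k - c‖) / h ≤ (1 - δ) * M := by
            rw [div_le_iff₀ hh]; linarith
          simp only [nsmul_eq_mul, mul_one]
          push_cast
          linarith
  have hI0 : 0 ≤ I := norm_nonneg _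
  have b4 : ((M : ℝ) + 2) * I ≤ Real.exp (-(δ * M)) := by
    have hp : 0 < h ^ (M + 1) := by positivity
    have : ((M : ℝ) + 2) * (h ^ (M + 1) * I) ≤ h ^ (M + 1) * Real.exp (-(δ * M)) := by
      refine le_trans ?_ b3
      rw [hseg2]
      gcongr
    have e2 : ((M : ℝ) + 2) * (h ^ (M + 1) * I) = h ^ (M + 1) * (((M : ℝ) + 2) * I) := by ring
    rw [e2] at this
    exact le_of_mul_le_mul_left this hp
  have b5 : Real.exp (-(δ * M)) ≤ 1 / (δ * M) := by
    rw [Real.exp_neg, ← one_div]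
    apply one_div_le_one_div_of_le ha0
    have := Real.add_one_le_exp (δ * M)
    linarith
  push_cast at hcore
  have c1 : δ / 1 ≤ (δ * M + 1) / (M + 1 + 1) + δ / M := by
    rw [div_add_div _ _ (by positivity) (by positivity), div_le_div_iff₀ (by positivity)
      (by positivity)]
    nlinarith [mul_pos hδ (by positivity : (0 : ℝ) < M)]
  have c2 : 2 * ((M : ℝ) + 1) * I ≤ 2 / (δ * M) := by
    have : 2 / (δ * M) = 2 * (1 / (δ * M)) := by ring
    nlinarith
  have c3 : 4 * ((M : ℝ) + 1) / (δ * M) ^ 2 ≤ 5 / (δ ^ 2 * M) := by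
    rw [div_le_div_iff₀ (by positivity) (by positivity)]
    have : 0 < δ ^ 2 * M := by positivity
    nlinarith
  have c4 : 2 / (δ * M) ≤ 2 / (δ ^ 2 * M) := by
    apply div_le_div_of_nonneg_left (by norm_num) (by positivity)
    nlinarith
  have c5 : δ / M ≤ 1 / (δ ^ 2 * M) := by
    rw [div_le_div_iff₀ (by positivity) (by positivity)]
    have : δ ^ 3 ≤ 1 := pow_le_one₀ hδ.le hδ1
    nlinarith
  have c6 : δ ≤ 8 / (δ ^ 2 * M) := by
    have : (8 : ℝ) / (δ ^ 2 * M) = 5 / (δ ^ 2 * M) + 2 / (δ ^ 2 * M) + 1 / (δ ^ 2 * M) := by ring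
    linarith
  rw [le_div_iff₀ (by positivity)] at c6
  nlinarith

lemma exists_enum (s : Multiset ℂ) (n : ℕ) (hs : s.card = n) :
    ∃ z : Fin n → ℂ, s = Finset.univ.val.map z := by
  subst hs
  induction s using Quotient.inductionOn with
  | _ l =>
    refine ⟨l.get, ?_⟩
    have := Fin.univ_val_map l.get
    rw [List.ofFn_get] at this
    exact this.symm

lemma eq_C_mul_P (F : ℂ[X]) (n : ℕ) (hn : F.natDegree = n) :
    ∃ z : Fin n → ℂ, F = C F.leadingCoeff * P z ∧ F.roots = Finset.univ.val.map z := by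
  have hc : F.roots.card = F.natDegree := IsAlgClosed.card_roots_eq_natDegree
  obtain ⟨z, hz⟩ := exists_enum F.roots n (hc.trans hn)
  refine ⟨z, ?_, hz⟩
  conv_lhs => rw [← C_leadingCoeff_mul_prod_multiset_X_sub_C hc, hz, Multiset.map_map]
  rfl

lemma setup (F : ℂ[X]) (N : ℕ) (hn : F.natDegree = N + 1) :
    ∃ (z : Fin (N + 1) → ℂ) (w : Fin N → ℂ), F.roots = Finset.univ.val.map z ∧
      derivative (P z) = C ((N : ℂ) + 1) * P w ∧ (∀ u, F.IsRoot u → ∃ k, z k = u) ∧
      ∀ j, (derivative F).IsRoot (w j) := by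
  obtain ⟨z, hz, hr⟩ := eq_C_mul_P F (N + 1) hn
  have hF : F ≠ 0 := by rintro rfl; simp at hn
  have hdeg : (derivative (P z)).natDegree = N := by
    rw [natDegree_derivative, P_natDegree]; simp
  obtain ⟨w, hw, hr'⟩ := eq_C_mul_P (derivative (P z)) N hdeg
  rw [leadingCoeff_derivative, (P_monic z).leadingCoeff, P_natDegree, one_mul] at hw
  refine ⟨z, w, hr, by rw [hw]; push_cast; rfl, fun u hu => ?_, fun j => ?_⟩
  · have := (mem_roots hF).mpr hu
    rw [hr] at this
    obtain ⟨k, -, hk⟩ := Multiset.mem_map.mp this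
    exact ⟨k, hk⟩
  · rw [hz, derivative_C_mul, hw]
    simp only [IsRoot, eval_mul, P_eval]
    rw [Finset.prod_eq_zero (mem_univ j) (sub_self _)]
    simp

lemma infDist_large (F : ℂ[X]) (M : ℕ) (hn : F.natDegree = M + 2) (δ : ℝ) (hδ : 0 < δ)
    (hδ1 : δ < 1) (hM : 10 < δ ^ 3 * M) (u : ℂ) (hu : F.IsRoot u) (c : ℂ) :
    (1 - δ) * M * Metric.infDist u {w | (derivative F).IsRoot w}
      ≤ (F.roots.map fun z => ‖z - c‖).sum := by
  obtain ⟨z, w, hr, hd, hz, hw⟩ := setup F (M + 1) hn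
  obtain ⟨k0, rfl⟩ := hz u hu
  have e : (F.roots.map fun z => ‖z - c‖).sum = ∑ k, ‖z k - c‖ := by
    rw [hr, Multiset.map_map]; rfl
  rw [e]
  rcases eq_or_lt_of_le (Metric.infDist_nonneg (x := z k0) (s := {w | (derivative F).IsRoot w}))
    with h0 | h0
  · rw [← h0, mul_zero]
    exact Finset.sum_nonneg fun _ _ => norm_nonneg _
  · refine (main_fin z w hd k0 c _ h0 (fun j => ?_) δ hδ hδ1.le hM).le
    rw [← dist_eq_norm]
    exact Metric.infDist_le_dist_of_mem (hw j)

lemma infDist_all (F : ℂ[X]) (M : ℕ) (hn : F.natDegree = M + 2) (u : ℂ) (hu : F.IsRoot u)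
    (c : ℂ) : Metric.infDist u {w | (derivative F).IsRoot w}
      ≤ 2 * (F.roots.map fun z => ‖z - c‖).sum := by
  obtain ⟨z, w, hr, hd, hz, hw⟩ := setup F (M + 1) hn
  obtain ⟨k0, rfl⟩ := hz u hu
  have e : (F.roots.map fun z => ‖z - c‖).sum = ∑ k, ‖z k - c‖ := by
    rw [hr, Multiset.map_map]; rfl
  rw [e]
  have h1 := dbs z w hd c
  have h2 := Finset.single_le_sum (f := fun j => ‖w j - c‖) (fun _ _ => norm_nonneg _)
      (Finset.mem_univ 0)
  have h3 := Finset.single_le_sum (f := fun k => ‖z k - c‖) (fun _ _ => norm_nonneg _)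
      (Finset.mem_univ k0)
  have h4 : Metric.infDist (z k0) {w | (derivative F).IsRoot w} ≤ dist (z k0) (w 0) :=
    Metric.infDist_le_dist_of_mem (hw 0)
  have h5 := dist_triangle_right (z k0) (w 0) c
  simp only [dist_eq_norm] at h4 h5
  linarith

lemma mean_le (F : ℂ[X]) (hn : 2 ≤ F.natDegree) (p : ℝ) (hp : 1 ≤ p) (c : ℂ) :
    (F.roots.map fun z => ‖z - c‖).sum / F.natDegree
      ≤ ((F.roots.map fun z => ‖z - c‖ ^ p).sum / F.natDegree) ^ (1 / p) := by
  obtain ⟨z, -, hr⟩ := eq_C_mul_P F _ rfl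
  have e1 : (F.roots.map fun z => ‖z - c‖).sum = ∑ k, ‖z k - c‖ := by
    rw [hr, Multiset.map_map]; rfl
  have e2 : (F.roots.map fun z => ‖z - c‖ ^ p).sum = ∑ k, ‖z k - c‖ ^ p := by
    rw [hr, Multiset.map_map]; rfl
  have hpos : (0 : ℝ) < F.natDegree := by exact_mod_cast (by omega : 0 < F.natDegree)
  have := Real.arith_mean_le_rpow_mean univ (fun _ : Fin F.natDegree => 1 / (F.natDegree : ℝ))
    (fun k => ‖z k - c‖) (fun _ _ => by positivity) (by simp; field_simp)
    (fun _ _ => norm_nonneg _) hp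
  rw [← Finset.mul_sum, ← Finset.mul_sum] at this
  rw [e1, e2, div_eq_inv_mul, div_eq_inv_mul, ← one_div]
  exact this

lemma hdist_le (F : ℂ[X]) (hn : 2 ≤ F.natDegree) (p : ℝ) (hp : 1 ≤ p) (K : ℝ) (hK : 0 < K)
    (h : ∀ u, F.IsRoot u → ∀ c : ℂ, Metric.infDist u {w | (derivative F).IsRoot w}
      ≤ K * ((F.roots.map fun z => ‖z - c‖).sum / F.natDegree)) :
    hdist F ≤ K * sigma p F := by
  have h0 : 0 ≤ sigma p F := Real.iInf_nonneg fun c => Real.rpow_nonneg
    (div_nonneg (Multiset.sum_nonneg fun t ht => by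
      obtain ⟨a, -, rfl⟩ := Multiset.mem_map.mp ht
      positivity) (Nat.cast_nonneg _)) _
  apply Real.sSup_le _ (by positivity)
  rintro _ ⟨u, hu, rfl⟩
  rw [← div_le_iff₀' hK]
  apply le_ciInf
  intro c
  refine le_trans ?_ (mean_le F hn p hp c)
  rw [div_le_iff₀' hK]
  exact h u hu c

/-- the small parameter -/
noncomputable def del (n : ℕ) : ℝ := (11 / ((n : ℝ) - 2)) ^ ((1 : ℝ) / 3)

/-- the constants -/
noncomputable def Cn (n : ℕ) : ℝ :=
  if 14 ≤ n then n / ((1 - del n) * (n - 2)) else 2 * n + 1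

lemma del_facts (n : ℕ) (hn : 14 ≤ n) : 0 < del n ∧ del n < 1 ∧ del n ^ 3 * ((n : ℝ) - 2) = 11 := by
  have h : (14 : ℝ) ≤ n := by exact_mod_cast hn
  have h1 : 0 < 11 / ((n : ℝ) - 2) := by apply div_pos <;> linarith
  have h2 : 11 / ((n : ℝ) - 2) < 1 := by rw [div_lt_one] <;> linarith
  refine ⟨Real.rpow_pos_of_pos h1 _, Real.rpow_lt_one h1.le h2 (by norm_num), ?_⟩
  unfold del
  rw [← Real.rpow_natCast, ← Real.rpow_mul h1.le]
  norm_num
  field_simp [show (n : ℝ) - 2 ≠ 0 by linarith]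

lemma one_le_Cn (n : ℕ) : 1 ≤ Cn n := by
  unfold Cn
  split_ifs with hn
  · obtain ⟨h1, h2, -⟩ := del_facts n hn
    have h : (14 : ℝ) ≤ n := by exact_mod_cast hn
    rw [one_le_div (by apply mul_pos <;> linarith)]
    nlinarith
  · have : (0 : ℝ) ≤ n := Nat.cast_nonneg n
    linarith

lemma Cn_tendsto : Tendsto Cn atTop (𝓝 1) := by
  have h1 : Tendsto (fun n : ℕ => (n : ℝ) - 2) atTop atTop :=
    tendsto_atTop_add_const_right _ (-2) tendsto_natCast_atTop_atTop
  have h2 : Tendsto del atTop (𝓝 0) := by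
    have := (tendsto_const_nhds (x := (11 : ℝ))).div_atTop h1
    have h3 := this.rpow_const (p := (1 : ℝ) / 3) (Or.inr (by norm_num))
    rw [Real.zero_rpow (by norm_num)] at h3
    exact h3
  have h3 : Tendsto (fun n : ℕ => (1 + 2 / ((n : ℝ) - 2)) / (1 - del n)) atTop
      (𝓝 ((1 + 0) / (1 - 0))) :=
    (tendsto_const_nhds.add (tendsto_const_nhds.div_atTop h1)).div
      (tendsto_const_nhds.sub h2) (by norm_num)
  simp only [add_zero, sub_zero, div_one] at h3
  refine h3.congr' ?_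
  filter_upwards [eventually_ge_atTop 14] with n hn
  obtain ⟨a1, a2, -⟩ := del_facts n hn
  have h : (14 : ℝ) ≤ n := by exact_mod_cast hn
  have b1 : (n : ℝ) - 2 ≠ 0 := by linarith
  have b2 : 1 - del n ≠ 0 := by linarith
  rw [Cn, if_pos hn]
  field_simp
  ring

theorem bound (p : ℝ) (hp : 1 ≤ p) (F : ℂ[X]) (hn : 2 ≤ F.natDegree) :
    hdist F ≤ Cn F.natDegree * sigma p F := by
  have hpos : (0 : ℝ) < F.natDegree := by exact_mod_cast (by omega : 0 < F.natDegree)
  apply hdist_le F hn p hp _ (lt_of_lt_of_le one_pos (one_le_Cn _))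
  intro u hu c
  obtain ⟨M, hM⟩ : ∃ M, F.natDegree = M + 2 := ⟨F.natDegree - 2, by omega⟩
  have hS : 0 ≤ (F.roots.map fun z => ‖z - c‖).sum := Multiset.sum_nonneg fun t ht => by
    obtain ⟨a, -, rfl⟩ := Multiset.mem_map.mp ht
    positivity
  unfold Cn
  split_ifs with h14
  · obtain ⟨a1, a2, a3⟩ := del_facts _ h14
    have e : (F.natDegree : ℝ) - 2 = M := by rw [hM]; push_cast; ring
    rw [e] at a3 ⊢
    have hM0 : (0 : ℝ) < M := by
      have : (14 : ℝ) ≤ F.natDegree := by exact_mod_cast h14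
      linarith
    have := infDist_large F M hM _ a1 a2 (by linarith) u hu c
    have b : 0 < (1 - del F.natDegree) * M := by apply mul_pos <;> linarith
    rw [div_mul_div_comm, mul_comm ((1 - del F.natDegree) * M), mul_div_mul_left _ _ hpos.ne',
      le_div_iff₀' b]
    exact this
  · have := infDist_all F M hM u hu c
    refine this.trans ?_
    rw [← mul_div_assoc, le_div_iff₀ hpos]
    nlinarith

end Pool.Agent.H496Z.Var
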